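import Mathlib

/-!
# Patterns and pattern-free families

The definitions of problem `MP_9357f2_co`.  The ground set `[n]` is `Fin n`; a pattern is a word
over `{+,-}`, represented by a list of Booleans (`true` is `+`, `false` is `-`).
-/

set_option autoImplicit false

namespace Pool.Agent.PatternDensity

/-- `A`, `B ⊆ [n]` form the pattern `P`: listing the symmetric difference of `A` and `B` in
increasing order as `j_1 < ... < j_t`, the word `P` has length `t` and `P_i` is `+` exactly when
`j_i ∈ A \ B`. -/
def FormPattern {n : ℕ} (P : List Bool) (A B : Finset (Fin n)) : Prop :=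
  ((symmDiff A B).sort).map (fun j => decide (j ∈ A \ B)) = P

/-- `P` is balanced: it has exactly `d` plus signs and `d` minus signs for some `d ≥ 1`. -/
def Balanced (P : List Bool) : Prop := ∃ d : ℕ, 1 ≤ d ∧ P.count true = d ∧ P.count false = d

/-- a family is `P`-free if no two of its members form the pattern `P` -/
def PatternFree {n : ℕ} (P : List Bool) (𝒜 : Finset (Finset (Fin n))) : Prop :=
  ∀ A ∈ 𝒜, ∀ B ∈ 𝒜, ¬ FormPattern P A B

/-- `f(n,k,P)`: the largest size of a `P`-free family of `k`-subsets of `[n]` -/
noncomputable def maxFree (n k : ℕ) (P : List Bool) : ℕ :=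
  sSup {m | ∃ 𝒜 : Finset (Finset (Fin n)), (∀ A ∈ 𝒜, A.card = k) ∧ PatternFree P 𝒜 ∧ 𝒜.card = m}

/-- `δ(n,k,P) = f(n,k,P) / binom(n,k)` -/
noncomputable def density (n k : ℕ) (P : List Bool) : ℝ := (maxFree n k P : ℝ) / (n.choose k : ℝ)

end Pool.Agent.PatternDensity
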