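import Mathlib
import Pool.Agent.PatternDensity.Defs

set_option autoImplicit false

namespace Pool.Agent.PatternDensity

open Finset

variable {n : ℕ} {κ : Type*} [Fintype κ] [DecidableEq κ]

/-- facts on `A = C ∪ {z_j}` -/
lemma grid_facts (I : κ → Finset (Fin n)) (hdisj : ∀ j j', j ≠ j' → Disjoint (I j) (I j'))
    (C : Finset (Fin n)) (z : κ → Fin n) (hz : ∀ j, z j ∈ I j \ C) :
    (C ∪ univ.image z) \ univ.image z = C ∧ (C ∪ univ.image z).card = C.card + Fintype.card κ ∧
    (∀ j, z j ∈ (C ∪ univ.image z) ∩ I j) ∧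
    (∀ j, ((C ∪ univ.image z) ∩ I j).card = (C ∩ I j).card + 1) ∧
    (∀ j, (I j \ C).card = (I j \ (C ∪ univ.image z)).card + 1) := by
  have hz1 : ∀ j, z j ∈ I j := fun j => (Finset.mem_sdiff.1 (hz j)).1
  have hz2 : ∀ j, z j ∉ C := fun j => (Finset.mem_sdiff.1 (hz j)).2
  have hinj : Function.Injective z := by
    intro j j' h
    by_contra hne
    have := Finset.disjoint_left.1 (hdisj j j' hne) (hz1 j)
    rw [h] at this
    exact this (hz1 j')
  have hdC : Disjoint C (univ.image z) := by
    rw [Finset.disjoint_right]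
    intro x hx
    obtain ⟨j, -, rfl⟩ := Finset.mem_image.1 hx
    exact hz2 j
  have hmem : ∀ j, z j ∈ C ∪ univ.image z := fun j =>
    Finset.mem_union_right _ (Finset.mem_image_of_mem _ (Finset.mem_univ j))
  have honly : ∀ j j', z j' ∈ I j → j' = j := by
    intro j j' h
    by_contra hne
    exact Finset.disjoint_left.1 (hdisj j' j hne) (hz1 j') h
  refine ⟨?_, ?_, fun j => Finset.mem_inter.2 ⟨hmem j, hz1 j⟩, ?_, ?_⟩
  · rw [Finset.union_sdiff_right, Finset.sdiff_eq_self_of_disjoint hdC]
  · rw [Finset.card_union_of_disjoint hdC, Finset.card_image_of_injective _ hinj,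
      Finset.card_univ]
  · intro j
    have : (C ∪ univ.image z) ∩ I j = insert (z j) (C ∩ I j) := by
      ext x
      rw [Finset.mem_inter, Finset.mem_union, Finset.mem_insert, Finset.mem_inter,
        Finset.mem_image]
      constructor
      · rintro ⟨h | ⟨j', -, rfl⟩, hI⟩
        · exact Or.inr ⟨h, hI⟩
        · left; rw [honly j j' hI]
      · rintro (rfl | ⟨h, hI⟩)
        · exact ⟨Or.inr ⟨j, Finset.mem_univ _, rfl⟩, hz1 j⟩
        · exact ⟨Or.inl h, hI⟩
    rw [this, Finset.card_insert_of_notMem (fun h => hz2 j (Finset.mem_inter.1 h).1)]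
  · intro j
    have : I j \ C = insert (z j) (I j \ (C ∪ univ.image z)) := by
      ext x
      rw [Finset.mem_sdiff, Finset.mem_insert, Finset.mem_sdiff, Finset.mem_union,
        Finset.mem_image]
      constructor
      · rintro ⟨hI, hC⟩
        by_cases hx : x = z j
        · exact Or.inl hx
        · right
          refine ⟨hI, ?_⟩
          rintro (h | ⟨j', -, rfl⟩)
          · exact hC h
          · exact hx (by rw [honly j j' hI])
      · rintro (rfl | ⟨hI, h⟩)
        · exact ⟨hz1 j, hz2 j⟩
        · exact ⟨hI, fun hC => h (Or.inl hC)⟩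
    rw [this, Finset.card_insert_of_notMem (fun h => (Finset.mem_sdiff.1 h).2 (hmem j))]

/-- the good sets -/
def Good (I : κ → Finset (Fin n)) (m N : ℕ) (A : Finset (Fin n)) : Prop :=
  A.card = m ∧ ∀ j, (A ∩ I j).Nonempty ∧ N ≤ (I j \ A).card

/-- the base sets of the grids -/
def Base (I : κ → Finset (Fin n)) (m N : ℕ) (C : Finset (Fin n)) : Prop :=
  C.card + Fintype.card κ = m ∧ ∀ j, N + 1 ≤ (I j \ C).card

open Classical in
/-- double counting of the good members of a family by grids -/
lemma double_count (I : κ → Finset (Fin n)) (hdisj : ∀ j j', j ≠ j' → Disjoint (I j) (I j'))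
    (m N : ℕ) (ℱ : Finset (Finset (Fin n))) :
    (((univ.filter (Good I m N)) ∩ ℱ).card : ℝ) =
      ∑ C ∈ univ.filter (Base I m N), (∏ j, (1 / (((C ∩ I j).card : ℝ) + 1))) *
        ((((Fintype.piFinset (fun j => I j \ C)).filter
          (fun z => C ∪ univ.image z ∈ ℱ)).card : ℕ) : ℝ) := by
  have h1 : (((univ.filter (Good I m N)) ∩ ℱ).card : ℝ) =
      ∑ A ∈ (univ.filter (Good I m N)) ∩ ℱ, ∑ z ∈ Fintype.piFinset (fun j => A ∩ I j),
        ∏ j, (1 / ((A ∩ I j).card : ℝ)) := by
    rw [Finset.card_eq_sum_ones, Nat.cast_sum]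
    apply Finset.sum_congr rfl
    intro A hA
    rw [Finset.mem_inter, Finset.mem_filter] at hA
    rw [Finset.sum_const, Fintype.card_piFinset, nsmul_eq_mul, Nat.cast_prod,
      ← Finset.prod_mul_distrib]
    rw [Finset.prod_eq_one, Nat.cast_one]
    intro j _
    have : 0 < (A ∩ I j).card := Finset.card_pos.2 (hA.1.2.2 j).1
    have : ((A ∩ I j).card : ℝ) ≠ 0 := by exact_mod_cast this.ne'
    field_simp
  have h2 : ∑ C ∈ univ.filter (Base I m N), (∏ j, (1 / (((C ∩ I j).card : ℝ) + 1))) *
        ((((Fintype.piFinset (fun j => I j \ C)).filter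
          (fun z => C ∪ univ.image z ∈ ℱ)).card : ℕ) : ℝ) =
      ∑ C ∈ univ.filter (Base I m N), ∑ z ∈ (Fintype.piFinset (fun j => I j \ C)).filter
          (fun z => C ∪ univ.image z ∈ ℱ), ∏ j, (1 / (((C ∩ I j).card : ℝ) + 1)) := by
    apply Finset.sum_congr rfl
    intro C _
    rw [Finset.sum_const, nsmul_eq_mul, mul_comm]
  rw [h1, h2, Finset.sum_sigma', Finset.sum_sigma']
  refine Finset.sum_bij' (i := fun p _ => ⟨p.1 \ univ.image p.2, p.2⟩)
    (j := fun p _ => ⟨p.1 ∪ univ.image p.2, p.2⟩) ?_ ?_ ?_ ?_ ?_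
  · rintro ⟨A, z⟩ hp
    simp only [Finset.mem_sigma, Finset.mem_inter, Finset.mem_filter, Finset.mem_univ,
      true_and] at hp ⊢
    obtain ⟨⟨hG, hF⟩, hz⟩ := hp
    rw [Fintype.mem_piFinset] at hz
    have hsub : univ.image z ⊆ A := by
      intro x hx
      obtain ⟨j, -, rfl⟩ := Finset.mem_image.1 hx
      exact (Finset.mem_inter.1 (hz j)).1
    have hAe : (A \ univ.image z) ∪ univ.image z = A := Finset.sdiff_union_of_subset hsub
    have hz' : ∀ j, z j ∈ I j \ (A \ univ.image z) := by
      intro j
      rw [Finset.mem_sdiff]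
      refine ⟨(Finset.mem_inter.1 (hz j)).2, fun h => (Finset.mem_sdiff.1 h).2 ?_⟩
      exact Finset.mem_image_of_mem _ (Finset.mem_univ j)
    obtain ⟨f1, f2, f3, f4, f5⟩ := grid_facts I hdisj _ z hz'
    rw [hAe] at f2 f5
    refine ⟨⟨by rw [← f2]; exact hG.1, fun j => ?_⟩, Fintype.mem_piFinset.2 hz', ?_⟩
    · rw [f5 j]; exact Nat.add_le_add_right (hG.2 j).2 1
    · rw [hAe]; exact hF
  · rintro ⟨C, z⟩ hp
    simp only [Finset.mem_sigma, Finset.mem_inter, Finset.mem_filter, Finset.mem_univ,
      true_and] at hp ⊢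
    obtain ⟨hB, hz, hF⟩ := hp
    rw [Fintype.mem_piFinset] at hz
    obtain ⟨f1, f2, f3, f4, f5⟩ := grid_facts I hdisj _ z hz
    refine ⟨⟨⟨by rw [f2]; exact hB.1, fun j => ⟨⟨z j, f3 j⟩, ?_⟩⟩, hF⟩, ?_⟩
    · have := hB.2 j
      rw [f5 j] at this
      omega
    · exact Fintype.mem_piFinset.2 f3
  · rintro ⟨A, z⟩ hp
    simp only [Finset.mem_sigma, Finset.mem_inter, Finset.mem_filter, Finset.mem_univ,
      true_and] at hp
    obtain ⟨⟨hG, hF⟩, hz⟩ := hp
    rw [Fintype.mem_piFinset] at hz
    have hsub : univ.image z ⊆ A := by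
      intro x hx
      obtain ⟨j, -, rfl⟩ := Finset.mem_image.1 hx
      exact (Finset.mem_inter.1 (hz j)).1
    simp only
    rw [Finset.sdiff_union_of_subset hsub]
  · rintro ⟨C, z⟩ hp
    simp only [Finset.mem_sigma, Finset.mem_filter, Finset.mem_univ, true_and] at hp
    obtain ⟨hB, hz, hF⟩ := hp
    rw [Fintype.mem_piFinset] at hz
    obtain ⟨f1, f2, f3, f4, f5⟩ := grid_facts I hdisj _ z hz
    simp only
    rw [f1]
  · rintro ⟨A, z⟩ hp
    simp only [Finset.mem_sigma, Finset.mem_inter, Finset.mem_filter, Finset.mem_univ,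
      true_and] at hp
    obtain ⟨⟨hG, hF⟩, hz⟩ := hp
    rw [Fintype.mem_piFinset] at hz
    have hsub : univ.image z ⊆ A := by
      intro x hx
      obtain ⟨j, -, rfl⟩ := Finset.mem_image.1 hx
      exact (Finset.mem_inter.1 (hz j)).1
    have hAe : (A \ univ.image z) ∪ univ.image z = A := Finset.sdiff_union_of_subset hsub
    have hz' : ∀ j, z j ∈ I j \ (A \ univ.image z) := by
      intro j
      rw [Finset.mem_sdiff]
      refine ⟨(Finset.mem_inter.1 (hz j)).2, fun h => (Finset.mem_sdiff.1 h).2 ?_⟩
      exact Finset.mem_image_of_mem _ (Finset.mem_univ j)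
    obtain ⟨f1, f2, f3, f4, f5⟩ := grid_facts I hdisj _ z hz'
    rw [hAe] at f4
    simp only
    apply Finset.prod_congr rfl
    intro j _
    rw [f4 j]
    push_cast
    ring

open Classical in
/-- a family which has few members in every grid has few good members -/
lemma card_good_le (I : κ → Finset (Fin n)) (hdisj : ∀ j j', j ≠ j' → Disjoint (I j) (I j'))
    (m N a e : ℕ) (hN : 0 < N) (ℱ : Finset (Finset (Fin n)))
    (h : ∀ C : Finset (Fin n), (∀ j, N ≤ (I j \ C).card) →
      ((Fintype.piFinset (fun j => I j \ C)).filter (fun z => C ∪ univ.image z ∈ ℱ)).card *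
        N ^ e ≤ a * ∏ j, (I j \ C).card) :
    ((univ.filter (Good I m N)) ∩ ℱ).card * N ^ e ≤ a * n.choose m := by
  have hNe : (0 : ℝ) < (N : ℝ) ^ e := by positivity
  have h1 := double_count I hdisj m N ℱ
  have h2 := double_count I hdisj m N (univ : Finset (Finset (Fin n)))
  have h3 : (((univ.filter (Good I m N)) ∩ ℱ).card : ℝ) * (N : ℝ) ^ e ≤
      a * (((univ.filter (Good I m N)) ∩ univ).card : ℝ) := by
    rw [h1, h2, Finset.sum_mul, Finset.mul_sum]
    apply Finset.sum_le_sum
    intro C hC
    rw [Finset.mem_filter] at hC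
    have h4 := h C (fun j => le_trans (Nat.le_succ N) (hC.2.2 j))
    have h5 : ((Fintype.piFinset (fun j => I j \ C)).filter
        (fun z => C ∪ univ.image z ∈ (univ : Finset (Finset (Fin n))))).card =
        ∏ j, (I j \ C).card := by
      rw [Finset.filter_true_of_mem (fun z _ => Finset.mem_univ _), Fintype.card_piFinset]
    rw [h5]
    have h6 : (((((Fintype.piFinset (fun j => I j \ C)).filter
          (fun z => C ∪ univ.image z ∈ ℱ)).card : ℕ) : ℝ)) * (N : ℝ) ^ e ≤
          a * ((∏ j, (I j \ C).card : ℕ) : ℝ) := by exact_mod_cast h4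
    have h7 : 0 ≤ ∏ j, (1 / (((C ∩ I j).card : ℝ) + 1)) := by positivity
    calc _ = (∏ j, (1 / (((C ∩ I j).card : ℝ) + 1))) *
          ((((((Fintype.piFinset (fun j => I j \ C)).filter
          (fun z => C ∪ univ.image z ∈ ℱ)).card : ℕ) : ℝ)) * (N : ℝ) ^ e) := by ring
      _ ≤ (∏ j, (1 / (((C ∩ I j).card : ℝ) + 1))) *
          (a * ((∏ j, (I j \ C).card : ℕ) : ℝ)) := mul_le_mul_of_nonneg_left h6 h7
      _ = _ := by ring
  have h8 : ((univ.filter (Good I m N)) ∩ univ).card ≤ n.choose m := by
    rw [Finset.inter_univ]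
    calc (univ.filter (Good I m N)).card ≤ (Finset.powersetCard m (univ : Finset (Fin n))).card := by
          apply Finset.card_le_card
          intro A hA
          rw [Finset.mem_filter] at hA
          rw [Finset.mem_powersetCard]
          exact ⟨Finset.subset_univ _, hA.2.1⟩
      _ = n.choose m := by rw [Finset.card_powersetCard]; simp
  have h9 : (((univ.filter (Good I m N)) ∩ ℱ).card * N ^ e : ℕ) ≤
      a * ((univ.filter (Good I m N)) ∩ univ).card := by exact_mod_cast h3
  exact h9.trans (Nat.mul_le_mul_left _ h8)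

open Classical in
/-- there are few sets that are not good -/
lemma card_bad_le (I : κ → Finset (Fin n)) (w m N : ℕ) (hI : ∀ j, (I j).card = w) (hw : 0 < w) :
    (univ.filter (fun A : Finset (Fin n) => A.card = m ∧ ¬ Good I m N A)).card ≤
      Fintype.card κ * ((1 + N * w ^ N) * 2 ^ (n - w)) := by
  set T : κ → Finset (Finset (Fin n)) := fun j =>
    insert (I j) ((Finset.range N).biUnion (fun i => Finset.powersetCard i (I j))) with hT
  have hTc : ∀ j, (T j).card ≤ 1 + N * w ^ N := by
    intro j
    calc (T j).card ≤ ((Finset.range N).biUnion (fun i => Finset.powersetCard i (I j))).card + 1 :=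
          Finset.card_insert_le _ _
      _ ≤ (∑ i ∈ Finset.range N, (Finset.powersetCard i (I j)).card) + 1 :=
          Nat.add_le_add_right Finset.card_biUnion_le 1
      _ ≤ (∑ _i ∈ Finset.range N, w ^ N) + 1 := by
          apply Nat.add_le_add_right
          apply Finset.sum_le_sum
          intro i hi
          rw [Finset.card_powersetCard, hI j]
          calc w.choose i ≤ w ^ i := Nat.choose_le_pow w i
            _ ≤ w ^ N := Nat.pow_le_pow_right hw (Finset.mem_range.1 hi).le
      _ = 1 + N * w ^ N := by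
          rw [Finset.sum_const, Finset.card_range, smul_eq_mul]; ring
  have hsub : (univ.filter (fun A : Finset (Fin n) => A.card = m ∧ ¬ Good I m N A)) ⊆
      (univ : Finset κ).biUnion (fun j => (univ : Finset (Finset (Fin n))).filter
        (fun A => I j \ A ∈ T j)) := by
    intro A hA
    rw [Finset.mem_filter] at hA
    obtain ⟨-, hAm, hAG⟩ := hA
    unfold Good at hAG
    push Not at hAG
    obtain ⟨j, hj⟩ := hAG hAm
    rw [Finset.mem_biUnion]
    refine ⟨j, Finset.mem_univ _, ?_⟩
    rw [Finset.mem_filter]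
    refine ⟨Finset.mem_univ _, ?_⟩
    rw [hT, Finset.mem_insert]
    by_cases hne : (A ∩ I j).Nonempty
    · right
      rw [Finset.mem_biUnion]
      refine ⟨(I j \ A).card, Finset.mem_range.2 (hj hne), ?_⟩
      rw [Finset.mem_powersetCard]
      exact ⟨Finset.sdiff_subset, rfl⟩
    · left
      rw [Finset.not_nonempty_iff_eq_empty] at hne
      rw [Finset.sdiff_eq_self_iff_disjoint]
      rw [Finset.disjoint_iff_inter_eq_empty, Finset.inter_comm]
      exact hne
  calc _ ≤ _ := Finset.card_le_card hsub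
    _ ≤ ∑ j : κ, ((univ : Finset (Finset (Fin n))).filter (fun A => I j \ A ∈ T j)).card :=
        Finset.card_biUnion_le
    _ ≤ ∑ _j : κ, ((1 + N * w ^ N) * 2 ^ (n - w)) := by
        apply Finset.sum_le_sum
        intro j _
        have : ((univ : Finset (Finset (Fin n))).filter (fun A => I j \ A ∈ T j)).card ≤
            (T j ×ˢ (I j)ᶜ.powerset).card := by
          apply Finset.card_le_card_of_injOn (fun A => (I j \ A, A \ I j))
          · intro A hA
            rw [Finset.mem_coe, Finset.mem_filter] at hA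
            rw [Finset.mem_coe, Finset.mem_product, Finset.mem_powerset]
            refine ⟨hA.2, ?_⟩
            intro x hx
            rw [Finset.mem_compl]
            exact (Finset.mem_sdiff.1 hx).2
          · intro A _ A' _ h
            simp only [Prod.mk.injEq] at h
            ext x
            by_cases hx : x ∈ I j
            · have h1 := Finset.ext_iff.1 h.1 x
              simp only [Finset.mem_sdiff, hx, true_and] at h1
              tauto
            · have h1 := Finset.ext_iff.1 h.2 x
              simp only [Finset.mem_sdiff, hx, not_false_eq_true, and_true] at h1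
              exact h1
        refine this.trans ?_
        rw [Finset.card_product, Finset.card_powerset, Finset.card_compl, Fintype.card_fin, hI j]
        exact Nat.mul_le_mul_right _ (hTc j)
    _ = _ := by rw [Finset.sum_const, smul_eq_mul, Finset.card_univ]

end Pool.Agent.PatternDensity
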