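import Mathlib

/-!
# A grid theorem

For a dense subset `Y` of a product of finite sets of integers we find two points of `Y` whose
difference has a prescribed sign pattern, whatever `Y` is.  Used for `MP_9357f2_co`.
-/

set_option autoImplicit false

namespace Pool.Agent.PatternDensity

open Finset

/-- coordinates: a group `(b, i)` and a position in the group -/
abbrev Co (B ρ M : ℕ) := (Fin B × Fin ρ) × Fin M

/-- directions: a block `b` and one position in each of the groups `(b, i)` -/
abbrev Dir (B ρ M : ℕ) := Fin B × (Fin ρ → Fin M)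

/-- sign types -/
abbrev Ty (ρ : ℕ) := Fin ρ → SignType

/-- the sign of `b - a` -/
noncomputable def sg (a b : ℕ) : SignType := SignType.sign ((b : ℤ) - (a : ℤ))

lemma sg_self (a : ℕ) : sg a a = 0 := by simp [sg]

lemma sg_eq_zero {a b : ℕ} (h : sg a b = 0) : a = b := by
  unfold sg at h
  rw [sign_eq_zero_iff] at h
  omega

lemma sg_eq_one {a b : ℕ} (h : sg a b = 1) : a < b := by
  unfold sg at h
  rw [sign_eq_one_iff] at h
  omega

lemma sg_eq_neg_one {a b : ℕ} (h : sg a b = -1) : b < a := by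
  unfold sg at h
  rw [sign_eq_neg_one_iff] at h
  omega

variable {B ρ M : ℕ}

/-- the coordinates of a direction -/
def co (s : Dir B ρ M) (i : Fin ρ) : Co B ρ M := ((s.1, i), s.2 i)

lemma co_injective (s : Dir B ρ M) : Function.Injective (co s) := by
  intro i i' h
  simp only [co, Prod.mk.injEq] at h
  exact h.1.2

/-- `y` is obtained from `x` by a move of type `σ` in the direction `s` -/
def Mv (s : Dir B ρ M) (σ : Ty ρ) (x y : Co B ρ M → ℕ) : Prop :=
  (∀ i, sg (x (co s i)) (y (co s i)) = σ i) ∧ ∀ j, (∀ i, j ≠ co s i) → y j = x j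

open Classical in
/-- the points of `Y` from which all moves of type `f` are possible within `Y` -/
noncomputable def Phi (f : Dir B ρ M → Ty ρ) (Y : Finset (Co B ρ M → ℕ)) :
    Finset (Co B ρ M → ℕ) := Y.filter (fun x => ∀ s, ∃ y ∈ Y, Mv s (f s) x y)

open Classical in
lemma Phi_subset (f : Dir B ρ M → Ty ρ) (Y : Finset (Co B ρ M → ℕ)) : Phi f Y ⊆ Y := by
  unfold Phi; exact Finset.filter_subset _ _

open Classical in
lemma Phi_mono (f : Dir B ρ M → Ty ρ) {Y Z : Finset (Co B ρ M → ℕ)} (h : Y ⊆ Z) :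
    Phi f Y ⊆ Phi f Z := by
  intro x hx
  unfold Phi at hx ⊢
  rw [Finset.mem_filter] at hx ⊢
  refine ⟨h hx.1, fun s => ?_⟩
  obtain ⟨y, hy, hm⟩ := hx.2 s
  exact ⟨y, h hy, hm⟩

open Classical in
lemma mem_Phi {f : Dir B ρ M → Ty ρ} {Y : Finset (Co B ρ M → ℕ)} {x : Co B ρ M → ℕ}
    (h : x ∈ Phi f Y) (s : Dir B ρ M) : ∃ y ∈ Y, Mv s (f s) x y := by
  unfold Phi at h
  rw [Finset.mem_filter] at h
  exact h.2 s

lemma iter_subset (f : Dir B ρ M → Ty ρ) (Y : Finset (Co B ρ M → ℕ)) (r : ℕ) :
    (Phi f)^[r] Y ⊆ Y := by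
  induction r with
  | zero => simp
  | succ r ih =>
    rw [Function.iterate_succ_apply']
    exact (Phi_subset f _).trans ih

lemma iter_mono (f : Dir B ρ M → Ty ρ) {Y Z : Finset (Co B ρ M → ℕ)} (h : Y ⊆ Z) (r : ℕ) :
    (Phi f)^[r] Y ⊆ (Phi f)^[r] Z := by
  induction r with
  | zero => simpa using h
  | succ r ih =>
    rw [Function.iterate_succ_apply', Function.iterate_succ_apply']
    exact Phi_mono f ih

lemma iter_anti (f : Dir B ρ M → Ty ρ) (Y : Finset (Co B ρ M → ℕ)) {r r' : ℕ} (h : r ≤ r') :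
    (Phi f)^[r'] Y ⊆ (Phi f)^[r] Y := by
  obtain ⟨k, rfl⟩ := Nat.exists_eq_add_of_le h
  rw [Function.iterate_add_apply]
  exact iter_mono f (iter_subset f Y k) r

/-- iterated `Phi` along a list -/
noncomputable def PhiL : List (Dir B ρ M → Ty ρ) → Finset (Co B ρ M → ℕ) →
    Finset (Co B ρ M → ℕ)
  | [], Y => Y
  | f :: l, Y => PhiL l (Phi f Y)

open Classical in
lemma PhiL_subset (l : List (Dir B ρ M → Ty ρ)) (f : Dir B ρ M → Ty ρ) :
    ∀ Y : Finset (Co B ρ M → ℕ), PhiL l Y ⊆ (Phi f)^[l.count f] Y := by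
  induction l with
  | nil => intro Y; simp [PhiL]
  | cons g l ih =>
    intro Y
    simp only [PhiL]
    by_cases hg : g = f
    · subst hg
      rw [List.count_cons_self, Function.iterate_succ_apply]
      exact ih _
    · rw [List.count_cons_of_ne hg]
      exact (ih _).trans (iter_mono f (Phi_subset g Y) _)

open Classical in
/-- points of `Y` that are alone in their slice -/
noncomputable def Bad (s : Dir B ρ M) (Y : Finset (Co B ρ M → ℕ)) : Finset (Co B ρ M → ℕ) :=
  Y.filter (fun x => ∀ y ∈ Y, (∀ j, (∀ i, j ≠ co s i) → y j = x j) → y = x)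

open Classical in
lemma card_bad (s : Dir B ρ M) (Y : Finset (Co B ρ M → ℕ)) (X : Co B ρ M → Finset ℕ) (N : ℕ)
    (hX : ∀ j, N ≤ (X j).card) (hY : Y ⊆ Fintype.piFinset X) :
    (Bad s Y).card * N ^ ρ ≤ ∏ j, (X j).card := by
  set S : Finset (Co B ρ M) := Finset.univ.image (co s) with hS
  have hSc : S.card = ρ := by
    rw [hS, Finset.card_image_of_injective _ (co_injective s)]; simp
  set X' : Co B ρ M → Finset ℕ := fun j => if j ∈ S then {0} else X j with hX'
  have h1 : (Bad s Y).card ≤ (Fintype.piFinset X').card := by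
    apply Finset.card_le_card_of_injOn (fun x j => if j ∈ S then 0 else x j)
    · intro x hx
      rw [Finset.mem_coe] at hx ⊢
      rw [Fintype.mem_piFinset]
      intro j
      unfold Bad at hx
      rw [Finset.mem_filter] at hx
      have hxj := Fintype.mem_piFinset.1 (hY hx.1) j
      simp only [hX']
      split_ifs with h
      · simp
      · exact hxj
    · intro x hx y hy hxy
      rw [Finset.mem_coe] at hx hy
      unfold Bad at hx hy
      rw [Finset.mem_filter] at hx hy
      refine (hy.2 x hx.1 ?_)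
      intro j hj
      have hjS : j ∉ S := by
        rw [hS, Finset.mem_image]
        rintro ⟨i, -, hi⟩
        exact hj i hi.symm
      have := congrFun hxy j
      simpa [hjS] using this
  rw [Fintype.card_piFinset] at h1
  have h2 : (∏ j, (X' j).card) * ∏ j ∈ S, (X j).card = ∏ j, (X j).card := by
    rw [← Finset.prod_mul_prod_compl S (fun j => (X j).card),
      ← Finset.prod_mul_prod_compl S (fun j => (X' j).card)]
    have e1 : ∏ j ∈ S, (X' j).card = 1 := by
      apply Finset.prod_eq_one
      intro j hj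
      simp [hX', hj]
    have e2 : ∏ j ∈ Sᶜ, (X' j).card = ∏ j ∈ Sᶜ, (X j).card := by
      apply Finset.prod_congr rfl
      intro j hj
      rw [Finset.mem_compl] at hj
      simp [hX', hj]
    rw [e1, e2]; ring
  have h3 : N ^ ρ ≤ ∏ j ∈ S, (X j).card := by
    calc N ^ ρ = N ^ S.card := by rw [hSc]
      _ = ∏ _j ∈ S, N := by rw [Finset.prod_const]
      _ ≤ _ := Finset.prod_le_prod' (fun j _ => hX j)
  calc (Bad s Y).card * N ^ ρ ≤ (∏ j, (X' j).card) * ∏ j ∈ S, (X j).card :=
        Nat.mul_le_mul h1 h3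
    _ = ∏ j, (X j).card := h2

open Classical in
lemma cover (Y : Finset (Co B ρ M → ℕ)) :
    Y ⊆ ((Finset.univ.filter (fun f : Dir B ρ M → Ty ρ => ∀ s, f s ≠ 0)).biUnion
      (fun f => Phi f Y)) ∪ (Finset.univ : Finset (Dir B ρ M)).biUnion (fun s => Bad s Y) := by
  intro x hx
  rw [Finset.mem_union]
  by_cases hb : ∃ s, x ∈ Bad s Y
  · right
    obtain ⟨s, hs⟩ := hb
    exact Finset.mem_biUnion.2 ⟨s, Finset.mem_univ _, hs⟩
  · left
    push Not at hb
    have hch : ∀ s : Dir B ρ M, ∃ y ∈ Y, (∀ j, (∀ i, j ≠ co s i) → y j = x j) ∧ y ≠ x := by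
      intro s
      have := hb s
      unfold Bad at this
      rw [Finset.mem_filter] at this
      push Not at this
      exact this hx
    choose y hyY hy1 hy2 using hch
    rw [Finset.mem_biUnion]
    refine ⟨fun s i => sg (x (co s i)) (y s (co s i)), ?_, ?_⟩
    · rw [Finset.mem_filter]
      refine ⟨Finset.mem_univ _, fun s h0 => hy2 s ?_⟩
      funext j
      by_cases hj : ∀ i, j ≠ co s i
      · exact hy1 s j hj
      · push Not at hj
        obtain ⟨i, rfl⟩ := hj
        exact (sg_eq_zero (congrFun h0 i)).symm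
    · unfold Phi
      rw [Finset.mem_filter]
      exact ⟨hx, fun s => ⟨y s, hyY s, fun i => rfl, hy1 s⟩⟩

/-- the constants of the grid theorem -/
def aSeq (T D : ℕ) : ℕ → ℕ
  | 0 => 0
  | t + 1 => T * aSeq T D t + D

open Classical in
lemma step (Y : Finset (Co B ρ M → ℕ)) (X : Co B ρ M → Finset ℕ) (N : ℕ)
    (hX : ∀ j, N ≤ (X j).card) (hY : Y ⊆ Fintype.piFinset X) (t : ℕ)
    (h : aSeq (Fintype.card (Dir B ρ M → Ty ρ)) (Fintype.card (Dir B ρ M)) (t + 1) *
      ∏ j, (X j).card < Y.card * N ^ ρ) :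
    ∃ f : Dir B ρ M → Ty ρ, (∀ s, f s ≠ 0) ∧
      aSeq (Fintype.card (Dir B ρ M → Ty ρ)) (Fintype.card (Dir B ρ M)) t *
      ∏ j, (X j).card < (Phi f Y).card * N ^ ρ := by
  by_contra hcon
  push Not at hcon
  set T := Fintype.card (Dir B ρ M → Ty ρ)
  set D := Fintype.card (Dir B ρ M)
  set F := (Finset.univ.filter (fun f : Dir B ρ M → Ty ρ => ∀ s, f s ≠ 0))
  have h1 : Y.card ≤ ∑ f ∈ F, (Phi f Y).card + ∑ s : Dir B ρ M, (Bad s Y).card :=
    calc Y.card ≤ _ := Finset.card_le_card (cover Y)
      _ ≤ (F.biUnion (fun f => Phi f Y)).card +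
          ((Finset.univ : Finset (Dir B ρ M)).biUnion (fun s => Bad s Y)).card :=
          Finset.card_union_le _ _
      _ ≤ _ := Nat.add_le_add Finset.card_biUnion_le Finset.card_biUnion_le
  have h2 : Y.card * N ^ ρ ≤ T * (aSeq T D t * ∏ j, (X j).card) + D * ∏ j, (X j).card :=
    calc Y.card * N ^ ρ
        ≤ (∑ f ∈ F, (Phi f Y).card + ∑ s : Dir B ρ M, (Bad s Y).card) * N ^ ρ :=
          Nat.mul_le_mul_right _ h1
      _ = ∑ f ∈ F, (Phi f Y).card * N ^ ρ + ∑ s : Dir B ρ M, (Bad s Y).card * N ^ ρ := by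
          rw [add_mul, Finset.sum_mul, Finset.sum_mul]
      _ ≤ ∑ _f ∈ F, (aSeq T D t * ∏ j, (X j).card) + ∑ _s : Dir B ρ M, ∏ j, (X j).card := by
          apply Nat.add_le_add
          · apply Finset.sum_le_sum
            intro f hf
            exact hcon f (Finset.mem_filter.1 hf).2
          · apply Finset.sum_le_sum
            intro s _
            exact card_bad s Y X N hX hY
      _ ≤ _ := by
          rw [Finset.sum_const, Finset.sum_const, smul_eq_mul, smul_eq_mul]
          apply Nat.add_le_add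
          · exact Nat.mul_le_mul_right _ (Finset.card_le_univ F)
          · exact le_of_eq (by rw [Finset.card_univ])
  simp only [aSeq] at h
  have h3 : (T * aSeq T D t + D) * ∏ j, (X j).card =
      T * (aSeq T D t * ∏ j, (X j).card) + D * ∏ j, (X j).card := by ring
  omega

lemma exists_list (X : Co B ρ M → Finset ℕ) (N : ℕ) (hX : ∀ j, N ≤ (X j).card) :
    ∀ (t : ℕ) (Y : Finset (Co B ρ M → ℕ)), Y ⊆ Fintype.piFinset X →
    aSeq (Fintype.card (Dir B ρ M → Ty ρ)) (Fintype.card (Dir B ρ M)) t *
      ∏ j, (X j).card < Y.card * N ^ ρ →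
    ∃ l : List (Dir B ρ M → Ty ρ), l.length = t ∧ (∀ f ∈ l, ∀ s, f s ≠ 0) ∧
      (PhiL l Y).Nonempty := by
  intro t
  induction t with
  | zero =>
    intro Y _ h
    refine ⟨[], rfl, by simp, ?_⟩
    simp only [PhiL]
    rw [Finset.nonempty_iff_ne_empty]
    rintro rfl
    simp at h
  | succ t ih =>
    intro Y hY h
    obtain ⟨f, hf, hf'⟩ := step Y X N hX hY t h
    obtain ⟨l, hl, hl', hne⟩ := ih (Phi f Y) ((Phi_subset f Y).trans hY) hf'
    refine ⟨f :: l, by simp [hl], ?_, ?_⟩
    · intro g hg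
      rcases List.mem_cons.1 hg with rfl | hg
      · exact hf
      · exact hl' g hg
    · simpa [PhiL] using hne

/-- pigeonhole: a long list contains some element many times -/
lemma exists_count {α : Type*} [Fintype α] [DecidableEq α] [Nonempty α] (l : List α) (r : ℕ)
    (h : Fintype.card α * r ≤ l.length) : ∃ a, r ≤ l.count a := by
  have h1 : ∑ a : α, l.count a = l.length := by
    have := Multiset.sum_count_eq_card (s := Finset.univ) (m := (l : Multiset α))
      (fun a _ => Finset.mem_univ a)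
    simpa using this
  by_contra hcon
  push Not at hcon
  have h2 : ∑ a : α, l.count a < ∑ _a : α, r :=
    Finset.sum_lt_sum_of_nonempty Finset.univ_nonempty (fun a _ => hcon a)
  rw [Finset.sum_const, smul_eq_mul, Finset.card_univ] at h2
  omega

lemma path (f : Dir B ρ M → Ty ρ) (Y : Finset (Co B ρ M → ℕ)) (c : Fin B → (Fin ρ → Fin M)) :
    ∀ (T : Finset (Fin B)) (p : Co B ρ M → ℕ), p ∈ (Phi f)^[T.card] Y →
    ∃ u ∈ Y, (∀ b ∈ T, ∀ i, sg (p ((b, i), c b i)) (u ((b, i), c b i)) = f (b, c b) i) ∧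
      ∀ j, (∀ b ∈ T, ∀ i, j ≠ ((b, i), c b i)) → u j = p j := by
  classical
  intro T
  induction T using Finset.induction_on with
  | empty =>
    intro p hp
    exact ⟨p, by simpa using hp, by simp, fun j _ => rfl⟩
  | insert b T hb ih =>
    intro p hp
    rw [Finset.card_insert_of_notMem hb, Function.iterate_succ_apply'] at hp
    obtain ⟨y, hy, hm1, hm2⟩ := mem_Phi hp (b, c b)
    obtain ⟨u, hu, hu1, hu2⟩ := ih y hy
    refine ⟨u, hu, ?_, ?_⟩
    · intro b' hb' i
      rcases Finset.mem_insert.1 hb' with rfl | hb'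
      · have e : u ((b', i), c b' i) = y ((b', i), c b' i) := by
          apply hu2
          intro b'' hb'' i' heq
          simp only [Prod.mk.injEq] at heq
          rw [heq.1.1] at hb
          exact hb hb''
        rw [e]
        exact hm1 i
      · have e : y ((b', i), c b' i) = p ((b', i), c b' i) := by
          apply hm2
          intro i' heq
          simp only [co, Prod.mk.injEq] at heq
          rw [heq.1.1] at hb'
          exact hb hb'
        rw [← e]
        exact hu1 b' hb' i
    · intro j hj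
      rw [hu2 j (fun b' hb' i => hj b' (Finset.mem_insert_of_mem hb') i)]
      exact hm2 j (fun i => hj b (Finset.mem_insert_self b T) i)

/-- two transversals of the same type, compared as the type prescribes -/
lemma exists_pair (hM : 9 ^ ρ < M) (g : (Fin ρ → Fin M) → Ty ρ) :
    ∃ c c' : Fin ρ → Fin M, g c = g c' ∧
      ∀ i, (g c i = 1 → c i < c' i) ∧ (g c i = -1 → c' i < c i) := by
  classical
  set s : Finset ((Fin ρ → Fin M) × ℕ) := Finset.univ ×ˢ Finset.range M with hs
  set t : Finset (Ty ρ × (Fin ρ → ℤ)) :=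
    Finset.univ ×ˢ Fintype.piFinset (fun _ : Fin ρ => Finset.Ico (-(M : ℤ)) (2 * M)) with ht
  have hcs : s.card = M ^ ρ * M := by
    rw [hs, Finset.card_product, Finset.card_univ, Finset.card_range]
    simp
  have hct : t.card = 3 ^ ρ * (3 * M) ^ ρ := by
    rw [ht, Finset.card_product, Finset.card_univ, Fintype.card_piFinset]
    have e1 : Fintype.card (Ty ρ) = 3 ^ ρ := by
      rw [Fintype.card_fun, Fintype.card_fin]
      rfl
    have e2 : ∏ _i : Fin ρ, (Finset.Ico (-(M : ℤ)) (2 * M)).card = (3 * M) ^ ρ := by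
      rw [Finset.prod_const, Int.card_Ico, Finset.card_univ, Fintype.card_fin]
      congr 1
      omega
    rw [e1, e2]
  have hlt : t.card < s.card := by
    rw [hcs, hct]
    have e : 3 ^ ρ * (3 * M) ^ ρ = M ^ ρ * 9 ^ ρ := by
      rw [mul_pow, ← mul_assoc, ← mul_pow]; ring
    rw [e]
    have hMp : 0 < M := lt_of_le_of_lt (Nat.zero_le _) hM
    exact Nat.mul_lt_mul_of_pos_left hM (pow_pos hMp _)
  have hsig : ∀ a : SignType, (-1 : ℤ) ≤ (a : ℤ) ∧ (a : ℤ) ≤ 1 := by
    intro a; cases a <;> simp
  obtain ⟨⟨c, u⟩, hc, ⟨c', u'⟩, hc', hne, heq⟩ :=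
    Finset.exists_ne_map_eq_of_card_lt_of_maps_to (s := s) (t := t) hlt
      (f := fun z => (g z.1, fun i => ((z.1 i : ℕ) : ℤ) + z.2 * (g z.1 i : ℤ))) (by
        rintro ⟨c, u⟩ hz
        rw [Finset.mem_coe, hs, Finset.mem_product, Finset.mem_range] at hz
        rw [Finset.mem_coe, ht, Finset.mem_product]
        refine ⟨Finset.mem_univ _, ?_⟩
        rw [Fintype.mem_piFinset]
        intro i
        rw [Finset.mem_Ico]
        have h1 := (c i).isLt
        have h2 := hz.2
        have h3 := hsig (g c i)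
        simp only at h2 ⊢
        constructor <;> nlinarith [h3.1, h3.2])
  simp only [Prod.mk.injEq] at heq
  obtain ⟨hgc, hfun⟩ := heq
  have hrel : ∀ i, ((c i : ℕ) : ℤ) + u * (g c i : ℤ) = ((c' i : ℕ) : ℤ) + u' * (g c i : ℤ) := by
    intro i
    have := congrFun hfun i
    rw [this, hgc]
  have huu : u ≠ u' := by
    rintro rfl
    apply hne
    have : c = c' := by
      funext i
      have h4 : ((c i : ℕ) : ℤ) = ((c' i : ℕ) : ℤ) := by
        have := hrel i
        linarith
      exact Fin.ext (by exact_mod_cast h4)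
    rw [this]
  rcases lt_or_gt_of_ne huu with hlt' | hgt
  · -- u < u'
    refine ⟨c', c, hgc.symm, fun i => ⟨fun h => ?_, fun h => ?_⟩⟩
    · rw [← hgc] at h
      have := hrel i
      rw [h] at this
      simp only [SignType.coe_one] at this
      rw [Fin.lt_def]
      zify; have : (u : ℤ) < u' := by exact_mod_cast hlt'
      linarith
    · rw [← hgc] at h
      have := hrel i
      rw [h] at this
      simp only [SignType.coe_neg_one] at this
      rw [Fin.lt_def]
      zify; have : (u : ℤ) < u' := by exact_mod_cast hlt'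
      linarith
  · refine ⟨c, c', hgc, fun i => ⟨fun h => ?_, fun h => ?_⟩⟩
    · have := hrel i
      rw [h] at this
      simp only [SignType.coe_one] at this
      rw [Fin.lt_def]
      zify; have : (u' : ℤ) < u := by exact_mod_cast hgt
      linarith
    · have := hrel i
      rw [h] at this
      simp only [SignType.coe_neg_one] at this
      rw [Fin.lt_def]
      zify; have : (u' : ℤ) < u := by exact_mod_cast hgt
      linarith

/-- **Grid theorem.**  For every `ρ ≥ 1` there are constants such that a subset `Y` of a product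
of sets of size `≥ N` that has density more than `a / N ^ ρ` contains two points `x`, `x'` which
differ in exactly `ρ!` groups, in each of them at two positions `lo < hi`, with `x < x'` at `lo`
and `x' < x` at `hi`. -/
theorem grid (ρ : ℕ) (hρ : 1 ≤ ρ) : ∃ B M a : ℕ, 0 < B ∧ 0 < M ∧
    ∀ (N : ℕ) (X : Co B ρ M → Finset ℕ)
    (Y : Finset (Co B ρ M → ℕ)), (∀ j, N ≤ (X j).card) → Y ⊆ Fintype.piFinset X →
    a * ∏ j, (X j).card < Y.card * N ^ ρ →
    ∃ x ∈ Y, ∃ x' ∈ Y, ∃ (G : Finset (Fin B × Fin ρ)) (lo hi : Fin B × Fin ρ → Fin M),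
      G.card = ρ.factorial ∧
      (∀ g ∈ G, lo g < hi g ∧ x (g, lo g) < x' (g, lo g) ∧ x' (g, hi g) < x (g, hi g)) ∧
      ∀ j, (∀ g ∈ G, j ≠ (g, lo g) ∧ j ≠ (g, hi g)) → x j = x' j := by
  classical
  set L := ρ.factorial with hL
  have hLpos : 0 < L := Nat.factorial_pos ρ
  set B := ρ * L with hB
  set M := 9 ^ ρ + 1 with hM
  refine ⟨B, M, aSeq (Fintype.card (Dir B ρ M → Ty ρ)) (Fintype.card (Dir B ρ M))
    (Fintype.card (Dir B ρ M → Ty ρ) * L), Nat.mul_pos hρ hLpos, Nat.succ_pos _, ?_⟩
  intro N X Y hX hY hdens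
  obtain ⟨l, hl, hl0, hne⟩ := exists_list X N hX _ Y hY hdens
  obtain ⟨f, hf⟩ := exists_count l L (by rw [hl])
  have hf0 : ∀ s, f s ≠ 0 := by
    apply hl0
    rw [← List.count_pos_iff]
    omega
  obtain ⟨p, hp⟩ := hne
  have hpL : p ∈ (Phi f)^[L] Y := iter_anti f Y hf (PhiL_subset l f Y hp)
  -- pairs in the blocks
  have hpair : ∀ b : Fin B, ∃ c c' : Fin ρ → Fin M, f (b, c) = f (b, c') ∧
      ∀ i, (f (b, c) i = 1 → c i < c' i) ∧ (f (b, c) i = -1 → c' i < c i) := fun b =>
    exists_pair (by omega) (fun c => f (b, c))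
  choose c c' hcc hord using hpair
  set σ : Fin B → Ty ρ := fun b => f (b, c b) with hσ
  -- the number of nonzero entries
  set h : Fin B → ℕ := fun b => (Finset.univ.filter (fun i => σ b i ≠ 0)).card with hh
  have hh1 : ∀ b, h b ∈ Finset.Icc 1 ρ := by
    intro b
    rw [Finset.mem_Icc]
    constructor
    · rw [Nat.one_le_iff_ne_zero, hh]
      simp only
      rw [Finset.card_ne_zero]
      by_contra hcon
      rw [Finset.not_nonempty_iff_eq_empty, Finset.filter_eq_empty_iff] at hcon
      apply hf0 (b, c b)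
      funext i
      have := hcon (Finset.mem_univ i)
      push Not at this
      exact this
    · calc h b ≤ (Finset.univ : Finset (Fin ρ)).card := Finset.card_filter_le _ _
        _ = ρ := by simp
  obtain ⟨q, hq, hqc⟩ := Finset.exists_le_card_fiber_of_mul_le_card_of_maps_to
    (s := (Finset.univ : Finset (Fin B))) (t := Finset.Icc 1 ρ) (f := h) (n := L)
    (fun b _ => hh1 b) ⟨1, by simp [hρ]⟩ (by simp [hB])
  rw [Finset.mem_Icc] at hq
  have hdvd : q ∣ L := Nat.dvd_factorial hq.1 hq.2
  obtain ⟨T, hTs, hTc⟩ := Finset.exists_subset_card_eq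
    (s := Finset.univ.filter (fun b => h b = q)) (n := L / q)
    ((Nat.div_le_self L q).trans hqc)
  have hTh : ∀ b ∈ T, h b = q := fun b hb => (Finset.mem_filter.1 (hTs hb)).2
  have hpT : p ∈ (Phi f)^[T.card] Y := iter_anti f Y (by rw [hTc]; exact Nat.div_le_self L q) hpL
  obtain ⟨u, hu, hu1, hu2⟩ := path f Y c T p hpT
  obtain ⟨v, hv, hv1, hv2⟩ := path f Y c' T p hpT
  -- the groups
  set G : Finset (Fin B × Fin ρ) :=
    (T ×ˢ Finset.univ).filter (fun g => σ g.1 g.2 ≠ 0) with hG
  have hGc : G.card = L := by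
    rw [hG, Finset.card_filter, Finset.sum_product]
    have : ∀ b ∈ T, ∑ i : Fin ρ, (if σ (b, i).1 (b, i).2 ≠ 0 then 1 else 0) = q := by
      intro b hb
      rw [← hTh b hb, hh]
      simp only
      rw [Finset.card_filter]
    rw [Finset.sum_congr rfl this, Finset.sum_const, smul_eq_mul, hTc]
    exact Nat.div_mul_cancel hdvd
  refine ⟨v, hv, u, hu, G, fun g => min (c g.1 g.2) (c' g.1 g.2),
    fun g => max (c g.1 g.2) (c' g.1 g.2), hGc, ?_, ?_⟩
  · rintro ⟨b, i⟩ hg
    rw [hG, Finset.mem_filter, Finset.mem_product] at hg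
    simp only at hg ⊢
    obtain ⟨⟨hbT, -⟩, hσi⟩ := hg
    have hne : c b i ≠ c' b i := by
      intro h
      rcases hσ' : σ b i with _ | _ | _
      · exact hσi hσ'
      · have := (hord b i).2 hσ'
        rw [h] at this
        exact lt_irrefl _ this
      · have := (hord b i).1 hσ'
        rw [h] at this
        exact lt_irrefl _ this
    have eu : u ((b, i), c' b i) = p ((b, i), c' b i) := by
      apply hu2
      intro b' hb' i' heq
      simp only [Prod.mk.injEq] at heq
      obtain ⟨⟨rfl, rfl⟩, heq⟩ := heq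
      exact hne heq.symm
    have ev : v ((b, i), c b i) = p ((b, i), c b i) := by
      apply hv2
      intro b' hb' i' heq
      simp only [Prod.mk.injEq] at heq
      obtain ⟨⟨rfl, rfl⟩, heq⟩ := heq
      exact hne heq
    have su := hu1 b hbT i
    have sv := hv1 b hbT i
    rw [← hcc b] at sv
    rcases hσ' : σ b i with _ | _ | _
    · exact absurd hσ' hσi
    · have hlt := (hord b i).2 hσ'
      have hσ'' : f (b, c b) i = -1 := hσ'
      rw [hσ''] at su sv
      rw [min_eq_right hlt.le, max_eq_left hlt.le]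
      refine ⟨hlt, ?_, ?_⟩
      · rw [eu]; exact sg_eq_neg_one sv
      · rw [ev]; exact sg_eq_neg_one su
    · have hlt := (hord b i).1 hσ'
      have hσ'' : f (b, c b) i = 1 := hσ'
      rw [hσ''] at su sv
      rw [min_eq_left hlt.le, max_eq_right hlt.le]
      refine ⟨hlt, ?_, ?_⟩
      · rw [ev]; exact sg_eq_one su
      · rw [eu]; exact sg_eq_one sv
  · intro j hj
    -- `u j = p j = v j`
    have key : ∀ (w : Co B ρ M → ℕ) (d : Fin B → Fin ρ → Fin M),
        (∀ b i, d b i = c b i ∨ d b i = c' b i) →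
        (∀ b ∈ T, ∀ i, sg (p ((b, i), d b i)) (w ((b, i), d b i)) = σ b i) →
        (∀ j, (∀ b ∈ T, ∀ i, j ≠ ((b, i), d b i)) → w j = p j) → w j = p j := by
      intro w d hd hw1 hw2
      by_cases hj' : ∀ b ∈ T, ∀ i, j ≠ ((b, i), d b i)
      · exact hw2 j hj'
      · push Not at hj'
        obtain ⟨b, hb, i, rfl⟩ := hj'
        by_cases hs : σ b i = 0
        · have := hw1 b hb i
          rw [hs] at this
          exact (sg_eq_zero this).symm
        · exfalso
          have hgG : (b, i) ∈ G := by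
            rw [hG, Finset.mem_filter, Finset.mem_product]
            exact ⟨⟨hb, Finset.mem_univ _⟩, hs⟩
          obtain ⟨h1, h2⟩ := hj (b, i) hgG
          simp only at h1 h2
          rcases le_total (c b i) (c' b i) with hle | hle
          · rw [min_eq_left hle] at h1
            rw [max_eq_right hle] at h2
            rcases hd b i with h | h <;> rw [h] at h1 h2
            · exact h1 rfl
            · exact h2 rfl
          · rw [min_eq_right hle] at h1
            rw [max_eq_left hle] at h2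
            rcases hd b i with h | h <;> rw [h] at h1 h2
            · exact h2 rfl
            · exact h1 rfl
    have e1 := key u c (fun b i => Or.inl rfl) hu1 hu2
    have e2 := key v c' (fun b i => Or.inr rfl) (fun b hb i => by
      rw [hv1 b hb i, ← hcc b]) hv2
    rw [e1, e2]

end Pool.Agent.PatternDensity
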