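import Mathlib
import Pool.Agent.PatternDensity.Defs

set_option autoImplicit false

namespace Pool.Agent.PatternDensity

open Finset

/-- the pattern `(plus minus minus plus)^L` -/
def pat (L : ℕ) : List Bool := (List.replicate L [true, false, false, true]).flatten

lemma pat_count_true (L : ℕ) : (pat L).count true = 2 * L := by
  induction L with
  | zero => simp [pat]
  | succ L ih =>
    unfold pat at ih ⊢
    rw [List.replicate_succ, List.flatten_cons, List.count_append, ih]
    simp
    ring

lemma pat_count_false (L : ℕ) : (pat L).count false = 2 * L := by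
  induction L with
  | zero => simp [pat]
  | succ L ih =>
    unfold pat at ih ⊢
    rw [List.replicate_succ, List.flatten_cons, List.count_append, ih]
    simp
    ring

lemma flatMap_const_pat {α : Type*} (l : List α) :
    l.flatMap (fun _ => [true, false, false, true]) = pat l.length := by
  induction l with
  | nil => simp [pat]
  | cons a l ih =>
    rw [List.flatMap_cons, ih]
    simp [pat, List.replicate_succ]

variable {n M : ℕ} {Γ : Type*} [DecidableEq Γ] [Fintype Γ]

/-- Two points of a grid that differ in groups as prescribed give two sets that form the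
pattern `(plus minus minus plus)^L`. -/
lemma formPattern_of_groups (I : Γ × Fin M → Finset (Fin n)) (C : Finset (Fin n))
    (z z' : Γ × Fin M → Fin n) (hz : ∀ j, z j ∈ I j \ C) (hz' : ∀ j, z' j ∈ I j \ C)
    (gs : List Γ)
    (hgs : gs.Pairwise (fun g g' => ∀ a a', ∀ x ∈ I (g, a), ∀ y ∈ I (g', a'), x < y))
    (hin : ∀ g a a', a < a' → ∀ x ∈ I (g, a), ∀ y ∈ I (g, a'), x < y)
    (hdisj : ∀ j j', j ≠ j' → Disjoint (I j) (I j'))
    (lo hi : Γ → Fin M)
    (h1 : ∀ g ∈ gs, lo g < hi g ∧ z (g, lo g) < z' (g, lo g) ∧ z' (g, hi g) < z (g, hi g))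
    (h2 : ∀ j, (∀ g ∈ gs, j ≠ (g, lo g) ∧ j ≠ (g, hi g)) → z j = z' j) :
    FormPattern (pat gs.length) (C ∪ univ.image z) (C ∪ univ.image z') := by
  have hz1 : ∀ j, z j ∈ I j := fun j => (Finset.mem_sdiff.1 (hz j)).1
  have hz2 : ∀ j, z j ∉ C := fun j => (Finset.mem_sdiff.1 (hz j)).2
  have hz1' : ∀ j, z' j ∈ I j := fun j => (Finset.mem_sdiff.1 (hz' j)).1
  have hz2' : ∀ j, z' j ∉ C := fun j => (Finset.mem_sdiff.1 (hz' j)).2
  -- membership
  have hnot : ∀ (w w' : Γ × Fin M → Fin n), (∀ j, w j ∈ I j) → (∀ j, w j ∉ C) →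
      (∀ j, w' j ∈ I j) → ∀ j, w j ≠ w' j → w j ∉ C ∪ univ.image w' := by
    intro w w' hw hwC hw' j hne hmem
    rw [Finset.mem_union, Finset.mem_image] at hmem
    rcases hmem with h | ⟨j', -, h⟩
    · exact hwC j h
    · by_cases hjj : j' = j
      · subst hjj; exact hne h.symm
      · have := Finset.disjoint_left.1 (hdisj j' j hjj) (hw' j')
        rw [h] at this
        exact this (hw j)
  set A := C ∪ univ.image z with hA
  set B := C ∪ univ.image z' with hB
  have hzA : ∀ j, z j ∈ A := fun j =>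
    Finset.mem_union_right _ (Finset.mem_image_of_mem _ (Finset.mem_univ j))
  have hzB : ∀ j, z' j ∈ B := fun j =>
    Finset.mem_union_right _ (Finset.mem_image_of_mem _ (Finset.mem_univ j))
  have hAB : ∀ j, z j ≠ z' j → z j ∈ A \ B := fun j h =>
    Finset.mem_sdiff.2 ⟨hzA j, hnot z z' hz1 hz2 hz1' j h⟩
  have hBA : ∀ j, z j ≠ z' j → z' j ∈ B \ A := fun j h =>
    Finset.mem_sdiff.2 ⟨hzB j, hnot z' z hz1' hz2' hz1 j (Ne.symm h)⟩
  have hneg : ∀ j, z j ≠ z' j → z' j ∉ A \ B := fun j h hc =>
    (Finset.mem_sdiff.1 (hBA j h)).2 (Finset.mem_sdiff.1 hc).1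
  have hdiff : ∀ x, x ∈ symmDiff A B ↔ ∃ j, z j ≠ z' j ∧ (x = z j ∨ x = z' j) := by
    intro x
    rw [Finset.mem_symmDiff]
    constructor
    · rintro (⟨hxA, hxB⟩ | ⟨hxB, hxA⟩)
      · rw [hA, Finset.mem_union, Finset.mem_image] at hxA
        rcases hxA with h | ⟨j, -, rfl⟩
        · exact absurd (Finset.mem_union_left _ h) hxB
        · refine ⟨j, ?_, Or.inl rfl⟩
          intro h
          rw [h] at hxB
          exact hxB (hzB j)
      · rw [hB, Finset.mem_union, Finset.mem_image] at hxB
        rcases hxB with h | ⟨j, -, rfl⟩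
        · exact absurd (Finset.mem_union_left _ h) hxA
        · refine ⟨j, ?_, Or.inr rfl⟩
          intro h
          rw [← h] at hxA
          exact hxA (hzA j)
    · rintro ⟨j, hj, rfl | rfl⟩
      · exact Or.inl (Finset.mem_sdiff.1 (hAB j hj))
      · exact Or.inr (Finset.mem_sdiff.1 (hBA j hj))
  -- the sorted list
  set l : List (Fin n) := gs.flatMap (fun g => [z (g, lo g), z' (g, lo g), z' (g, hi g),
    z (g, hi g)]) with hl
  have hlpw : l.Pairwise (· < ·) := by
    rw [hl, List.pairwise_flatMap]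
    constructor
    · intro g hg
      obtain ⟨h, ha, hb⟩ := h1 g hg
      have h3 := hin g (lo g) (hi g) h
      simp only [List.pairwise_cons, List.mem_cons, List.not_mem_nil, or_false,
        forall_eq_or_imp, forall_eq, IsEmpty.forall_iff, implies_true, List.Pairwise.nil,
        and_true]
      exact ⟨⟨ha, h3 _ (hz1 _) _ (hz1' _), h3 _ (hz1 _) _ (hz1 _)⟩,
        ⟨h3 _ (hz1' _) _ (hz1' _), h3 _ (hz1' _) _ (hz1 _)⟩, hb⟩
    · refine hgs.imp ?_
      intro g g' hgg x hx y hy
      have hx' : ∃ a, x ∈ I (g, a) := by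
        simp only [List.mem_cons, List.not_mem_nil, or_false] at hx
        rcases hx with rfl | rfl | rfl | rfl
        · exact ⟨_, hz1 _⟩
        · exact ⟨_, hz1' _⟩
        · exact ⟨_, hz1' _⟩
        · exact ⟨_, hz1 _⟩
      have hy' : ∃ a, y ∈ I (g', a) := by
        simp only [List.mem_cons, List.not_mem_nil, or_false] at hy
        rcases hy with rfl | rfl | rfl | rfl
        · exact ⟨_, hz1 _⟩
        · exact ⟨_, hz1' _⟩
        · exact ⟨_, hz1' _⟩
        · exact ⟨_, hz1 _⟩
      obtain ⟨a, ha⟩ := hx'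
      obtain ⟨a', ha'⟩ := hy'
      exact hgg a a' x ha y ha'
  have hlset : l.toFinset = symmDiff A B := by
    ext x
    rw [List.mem_toFinset, hdiff, hl, List.mem_flatMap]
    constructor
    · rintro ⟨g, hg, hx⟩
      obtain ⟨h, ha, hb⟩ := h1 g hg
      simp only [List.mem_cons, List.not_mem_nil, or_false] at hx
      rcases hx with rfl | rfl | rfl | rfl
      · exact ⟨_, ne_of_lt ha, Or.inl rfl⟩
      · exact ⟨_, ne_of_lt ha, Or.inr rfl⟩
      · exact ⟨_, ne_of_gt hb, Or.inr rfl⟩
      · exact ⟨_, ne_of_gt hb, Or.inl rfl⟩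
    · rintro ⟨j, hj, hx⟩
      have : ∃ g ∈ gs, j = (g, lo g) ∨ j = (g, hi g) := by
        by_contra hcon
        push Not at hcon
        exact hj (h2 j hcon)
      obtain ⟨g, hg, rfl | rfl⟩ := this
      · refine ⟨g, hg, ?_⟩
        simp only [List.mem_cons, List.not_mem_nil, or_false]
        rcases hx with rfl | rfl
        · exact Or.inl rfl
        · exact Or.inr (Or.inl rfl)
      · refine ⟨g, hg, ?_⟩
        simp only [List.mem_cons, List.not_mem_nil, or_false]
        rcases hx with rfl | rfl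
        · exact Or.inr (Or.inr (Or.inr rfl))
        · exact Or.inr (Or.inr (Or.inl rfl))
  have hsort : (symmDiff A B).sort = l := by
    have hnd : l.Nodup := hlpw.imp (fun h => ne_of_lt h)
    have hperm : ((symmDiff A B).sort).Perm l := by
      apply List.perm_of_nodup_nodup_toFinset_eq (Finset.sort_nodup _ _) hnd
      rw [Finset.sort_toFinset, hlset]
    exact hperm.eq_of_pairwise' (Finset.pairwise_sort _ _) (hlpw.imp (fun h => le_of_lt h))
  unfold FormPattern
  rw [hsort, hl, List.map_flatMap, ← flatMap_const_pat gs]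
  apply List.flatMap_congr
  intro g hg
  obtain ⟨h, ha, hb⟩ := h1 g hg
  simp only [List.map_cons, List.map_nil]
  rw [decide_eq_true (hAB _ (ne_of_lt ha)), decide_eq_true (hAB _ (ne_of_gt hb)),
    decide_eq_false (hneg _ (ne_of_lt ha)), decide_eq_false (hneg _ (ne_of_gt hb))]

end Pool.Agent.PatternDensity
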