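import Mathlib
import Pool.Agent.PatternDensity.Defs
import Pool.Agent.PatternDensity.Grid
import Pool.Agent.PatternDensity.Groups
import Pool.Agent.PatternDensity.Count

set_option autoImplicit false

namespace Pool.Agent.PatternDensity

open Finset

/-- the position number of a coordinate -/
def pos {B ρ M : ℕ} (j : Co B ρ M) : ℕ := (finProdFinEquiv j.1 : Fin (B * ρ)).val * M + j.2.val

/-- the interval of a coordinate -/
def itv {B ρ M : ℕ} (n w : ℕ) (j : Co B ρ M) : Finset (Fin n) :=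
  univ.filter (fun x => pos j * w ≤ x.val ∧ x.val < (pos j + 1) * w)

lemma pos_lt {B ρ M : ℕ} (j : Co B ρ M) : pos j + 1 ≤ B * ρ * M := by
  unfold pos
  have h1 := (finProdFinEquiv j.1 : Fin (B * ρ)).isLt
  have h2 := j.2.isLt
  have h3 : ((finProdFinEquiv j.1 : Fin (B * ρ)).val + 1) * M ≤ B * ρ * M :=
    Nat.mul_le_mul_right _ h1
  rw [Nat.add_mul, one_mul] at h3
  omega

lemma itv_lt {B ρ M : ℕ} (n w : ℕ) (j j' : Co B ρ M) (h : pos j < pos j') :
    ∀ x ∈ itv n w j, ∀ y ∈ itv n w j', x < y := by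
  intro x hx y hy
  unfold itv at hx hy
  rw [Finset.mem_filter] at hx hy
  rw [Fin.lt_def]
  have : (pos j + 1) * w ≤ pos j' * w := Nat.mul_le_mul_right _ h
  omega

lemma pos_lt_of_group {B ρ M : ℕ} (g g' : Fin B × Fin ρ) (a a' : Fin M)
    (h : (finProdFinEquiv g : Fin (B * ρ)) < finProdFinEquiv g') :
    pos (g, a) < pos (g', a') := by
  unfold pos
  simp only
  have h1 : (finProdFinEquiv g : Fin (B * ρ)).val + 1 ≤ (finProdFinEquiv g').val := h
  have h3 := Nat.mul_le_mul_right M h1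
  rw [Nat.add_mul, one_mul] at h3
  have := a.isLt
  omega

lemma pos_lt_of_pos {B ρ M : ℕ} (g : Fin B × Fin ρ) (a a' : Fin M) (h : a < a') :
    pos (g, a) < pos (g, a') := by
  unfold pos
  simp only
  rw [Fin.lt_def] at h
  omega

lemma pos_injective {B ρ M : ℕ} : Function.Injective (pos : Co B ρ M → ℕ) := by
  rintro ⟨g, a⟩ ⟨g', a'⟩ h
  rcases lt_trichotomy (finProdFinEquiv g : Fin (B * ρ)) (finProdFinEquiv g') with hg | hg | hg
  · exact absurd h (ne_of_lt (pos_lt_of_group g g' a a' hg))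
  · have := finProdFinEquiv.injective hg
    subst this
    rcases lt_trichotomy a a' with ha | ha | ha
    · exact absurd h (ne_of_lt (pos_lt_of_pos g a a' ha))
    · rw [ha]
    · exact absurd h (ne_of_gt (pos_lt_of_pos g a' a ha))
  · exact absurd h (ne_of_gt (pos_lt_of_group g' g a' a hg))

lemma itv_disjoint {B ρ M : ℕ} (n w : ℕ) (j j' : Co B ρ M) (h : j ≠ j') :
    Disjoint (itv n w j) (itv n w j') := by
  rw [Finset.disjoint_left]
  intro x hx hx'
  rcases lt_or_gt_of_ne (fun e => h (pos_injective e)) with hlt | hlt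
  · exact lt_irrefl _ (itv_lt n w j j' hlt x hx x hx')
  · exact lt_irrefl _ (itv_lt n w j' j hlt x hx' x hx)

lemma card_itv {B ρ M : ℕ} (n w : ℕ) (h : B * ρ * M * w ≤ n) (j : Co B ρ M) :
    (itv n w j).card = w := by
  have h1 : (pos j + 1) * w ≤ n := (Nat.mul_le_mul_right w (pos_lt j)).trans h
  have h2 : (itv n w j).map Fin.valEmbedding = Finset.Ico (pos j * w) ((pos j + 1) * w) := by
    ext x
    rw [Finset.mem_map, Finset.mem_Ico]
    unfold itv
    constructor
    · rintro ⟨y, hy, rfl⟩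
      rw [Finset.mem_filter] at hy
      exact hy.2
    · intro hx
      refine ⟨⟨x, by omega⟩, ?_, rfl⟩
      rw [Finset.mem_filter]
      exact ⟨Finset.mem_univ _, hx⟩
  rw [← Finset.card_map Fin.valEmbedding, h2, Nat.card_Ico]
  rw [Nat.add_mul, one_mul]
  omega

open Classical in
/-- a pattern-free family is sparse in every grid -/
lemma fiber (ρ B M a : ℕ) (n w N : ℕ)
    (hgrid : ∀ (N : ℕ) (X : Co B ρ M → Finset ℕ)
    (Y : Finset (Co B ρ M → ℕ)), (∀ j, N ≤ (X j).card) → Y ⊆ Fintype.piFinset X →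
    a * ∏ j, (X j).card < Y.card * N ^ ρ →
    ∃ x ∈ Y, ∃ x' ∈ Y, ∃ (G : Finset (Fin B × Fin ρ)) (lo hi : Fin B × Fin ρ → Fin M),
      G.card = ρ.factorial ∧
      (∀ g ∈ G, lo g < hi g ∧ x (g, lo g) < x' (g, lo g) ∧ x' (g, hi g) < x (g, hi g)) ∧
      ∀ j, (∀ g ∈ G, j ≠ (g, lo g) ∧ j ≠ (g, hi g)) → x j = x' j)
    (𝒜 : Finset (Finset (Fin n))) (h𝒜 : PatternFree (pat ρ.factorial) 𝒜) (C : Finset (Fin n))
    (hC : ∀ j : Co B ρ M, N ≤ (itv n w j \ C).card) :
    ((Fintype.piFinset (fun j : Co B ρ M => itv n w j \ C)).filter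
      (fun z => C ∪ univ.image z ∈ 𝒜)).card * N ^ ρ ≤ a * ∏ j : Co B ρ M, (itv n w j \ C).card := by
  by_contra hcon
  push Not at hcon
  set Z := (Fintype.piFinset (fun j : Co B ρ M => itv n w j \ C)).filter
      (fun z => C ∪ univ.image z ∈ 𝒜) with hZ
  set val : (Co B ρ M → Fin n) → (Co B ρ M → ℕ) := fun z j => (z j).val with hval
  have hvinj : Function.Injective val := by
    intro z z' h
    funext j
    exact Fin.ext (congrFun h j)
  set X : Co B ρ M → Finset ℕ := fun j => (itv n w j \ C).map Fin.valEmbedding with hX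
  have hXc : ∀ j, (X j).card = (itv n w j \ C).card := fun j => Finset.card_map _
  obtain ⟨x, hx, x', hx', G, lo, hi, hGc, h1, h2⟩ := hgrid N X (Z.image val)
    (fun j => by rw [hXc]; exact hC j)
    (by
      intro y hy
      obtain ⟨z, hz, rfl⟩ := Finset.mem_image.1 hy
      rw [hZ, Finset.mem_filter, Fintype.mem_piFinset] at hz
      rw [Fintype.mem_piFinset]
      intro j
      rw [hX, Finset.mem_map]
      exact ⟨z j, hz.1 j, rfl⟩)
    (by
      rw [Finset.card_image_of_injective _ hvinj]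
      simp only [hXc]
      exact hcon)
  obtain ⟨z, hz, rfl⟩ := Finset.mem_image.1 hx
  obtain ⟨z', hz', rfl⟩ := Finset.mem_image.1 hx'
  rw [hZ, Finset.mem_filter, Fintype.mem_piFinset] at hz hz'
  -- the sorted list of groups
  set gs : List (Fin B × Fin ρ) :=
    ((G.map finProdFinEquiv.toEmbedding).sort).map finProdFinEquiv.symm with hgs
  have hmem : ∀ g, g ∈ gs ↔ g ∈ G := by
    intro g
    rw [hgs, List.mem_map]
    constructor
    · rintro ⟨q, hq, rfl⟩
      rw [Finset.mem_sort, Finset.mem_map] at hq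
      obtain ⟨g', hg', rfl⟩ := hq
      simpa using hg'
    · intro hg
      refine ⟨finProdFinEquiv g, ?_, by simp⟩
      rw [Finset.mem_sort, Finset.mem_map]
      exact ⟨g, hg, rfl⟩
  have hlen : gs.length = ρ.factorial := by
    rw [hgs, List.length_map, Finset.length_sort, Finset.card_map, hGc]
  have hpw : gs.Pairwise (fun g g' => (finProdFinEquiv g : Fin (B * ρ)) < finProdFinEquiv g') := by
    rw [hgs, List.pairwise_map]
    simp only [Equiv.apply_symm_apply]
    exact (Finset.sortedLT_sort _).pairwise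
  have := formPattern_of_groups (fun j : Co B ρ M => itv n w j) C z z' hz.1 hz'.1 gs
    (hpw.imp (fun {g g'} hgg a a' x hx y hy =>
      itv_lt n w (g, a) (g', a') (pos_lt_of_group g g' a a' hgg) x hx y hy))
    (fun g a a' haa x hx y hy =>
      itv_lt n w (g, a) (g, a') (pos_lt_of_pos g a a' haa) x hx y hy)
    (fun j j' h => itv_disjoint n w j j' h) lo hi
    (fun g hg => by
      obtain ⟨h3, h4, h5⟩ := h1 g ((hmem g).1 hg)
      exact ⟨h3, h4, h5⟩)
    (fun j hj => by
      have := h2 j (fun g hg => hj g ((hmem g).2 hg))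
      exact Fin.ext this)
  rw [hlen] at this
  exact h𝒜 _ hz.2 _ hz'.2 this

open Classical in
/-- the size of a pattern-free family in a layer -/
lemma card_family_le (ρ B M a : ℕ) (n w N m : ℕ) (hN : 0 < N) (hw : 0 < w)
    (hnw : B * ρ * M * w ≤ n)
    (hgrid : ∀ (N : ℕ) (X : Co B ρ M → Finset ℕ)
    (Y : Finset (Co B ρ M → ℕ)), (∀ j, N ≤ (X j).card) → Y ⊆ Fintype.piFinset X →
    a * ∏ j, (X j).card < Y.card * N ^ ρ →
    ∃ x ∈ Y, ∃ x' ∈ Y, ∃ (G : Finset (Fin B × Fin ρ)) (lo hi : Fin B × Fin ρ → Fin M),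
      G.card = ρ.factorial ∧
      (∀ g ∈ G, lo g < hi g ∧ x (g, lo g) < x' (g, lo g) ∧ x' (g, hi g) < x (g, hi g)) ∧
      ∀ j, (∀ g ∈ G, j ≠ (g, lo g) ∧ j ≠ (g, hi g)) → x j = x' j)
    (𝒜 : Finset (Finset (Fin n))) (h𝒜 : PatternFree (pat ρ.factorial) 𝒜)
    (hm : ∀ A ∈ 𝒜, A.card = m) :
    𝒜.card * N ^ ρ ≤ a * n.choose m +
      (B * ρ * M * ((1 + N * w ^ N) * 2 ^ (n - w))) * N ^ ρ := by
  have hk : Fintype.card (Co B ρ M) = B * ρ * M := by simp
  have h1 := card_good_le (fun j : Co B ρ M => itv n w j)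
    (fun j j' h => itv_disjoint n w j j' h) m N a ρ hN 𝒜
    (fun C hC => fiber ρ B M a n w N hgrid 𝒜 h𝒜 C hC)
  have h2 := card_bad_le (fun j : Co B ρ M => itv n w j) w m N (fun j => card_itv n w hnw j) hw
  rw [hk] at h2
  have h3 : 𝒜.card ≤ ((univ.filter (Good (fun j : Co B ρ M => itv n w j) m N)) ∩ 𝒜).card +
      (univ.filter (fun A : Finset (Fin n) => A.card = m ∧
        ¬ Good (fun j : Co B ρ M => itv n w j) m N A)).card := by
    refine le_trans (Finset.card_le_card ?_) (Finset.card_union_le _ _)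
    intro A hA
    rw [Finset.mem_union, Finset.mem_inter, Finset.mem_filter, Finset.mem_filter]
    by_cases hG : Good (fun j : Co B ρ M => itv n w j) m N A
    · exact Or.inl ⟨⟨Finset.mem_univ _, hG⟩, hA⟩
    · exact Or.inr ⟨Finset.mem_univ _, hm A hA, hG⟩
  calc 𝒜.card * N ^ ρ ≤ _ := Nat.mul_le_mul_right _ h3
    _ = _ := Nat.add_mul _ _ _
    _ ≤ _ := Nat.add_le_add h1 (Nat.mul_le_mul_right _ h2)

end Pool.Agent.PatternDensity
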