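import Mathlib

set_option autoImplicit false

namespace Pool.Agent.PatternDensity

/-- the first numerical inequality -/
lemma num1 (k a G N n : ℕ) (hN : 2 * a * (16 * k) ^ G ≤ N) (hn : n ≤ 16 * k * N ^ 4) :
    2 * n ^ G * a ≤ N ^ (4 * G + 1) := by
  calc 2 * n ^ G * a ≤ 2 * (16 * k * N ^ 4) ^ G * a := by gcongr
    _ = (2 * a * (16 * k) ^ G) * N ^ (4 * G) := by
        rw [mul_pow, ← pow_mul]; ring
    _ ≤ N * N ^ (4 * G) := Nat.mul_le_mul_right _ hN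
    _ = N ^ (4 * G + 1) := by ring

/-- the second numerical inequality -/
lemma num2 (k G N w n : ℕ) (hN1 : 4 * G + 9 ≤ N) (hN2 : 8 * k * (16 * k) ^ (G + 1) ≤ N)
    (hw1 : N ^ 4 ≤ w) (hw2 : w < (N + 1) ^ 4) (hn : n ≤ 16 * k * N ^ 4) (hn1 : 1 ≤ n) :
    (n + 1) * (2 * n ^ G * (k * (1 + N * w ^ N))) ≤ 2 ^ w := by
  have hNpow : N + 1 ≤ 2 ^ N := Nat.lt_two_pow_self
  have hNpow' : N ≤ 2 ^ N := by omega
  have hNw : N ≤ w := by
    calc N = N ^ 1 := (pow_one N).symm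
      _ ≤ N ^ 4 := Nat.pow_le_pow_right (by omega) (by norm_num)
      _ ≤ w := hw1
  have hw0 : 1 ≤ w := by omega
  have hwp : w ≤ 2 ^ (4 * N) := by
    calc w ≤ (N + 1) ^ 4 := hw2.le
      _ ≤ (2 ^ N) ^ 4 := Nat.pow_le_pow_left hNpow 4
      _ = 2 ^ (4 * N) := by rw [← pow_mul]; ring_nf
  have h1 : 1 + N * w ^ N ≤ 2 * w ^ (N + 1) := by
    have e1 : 1 ≤ w ^ (N + 1) := Nat.one_le_pow _ _ hw0
    have e2 : N * w ^ N ≤ w ^ (N + 1) := by
      rw [pow_succ']; exact Nat.mul_le_mul_right _ hNw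
    omega
  have h2 : w ^ (N + 1) ≤ 2 ^ (4 * N * (N + 1)) := by
    calc w ^ (N + 1) ≤ (2 ^ (4 * N)) ^ (N + 1) := Nat.pow_le_pow_left hwp _
      _ = _ := by rw [← pow_mul]
  have h3 : (n + 1) * n ^ G ≤ 2 * ((16 * k) ^ (G + 1) * 2 ^ (4 * N * (G + 1))) := by
    calc (n + 1) * n ^ G ≤ (2 * n) * n ^ G := Nat.mul_le_mul_right _ (by omega)
      _ = 2 * n ^ (G + 1) := by ring
      _ ≤ 2 * (16 * k * N ^ 4) ^ (G + 1) := by gcongr
      _ ≤ 2 * (16 * k * (2 ^ N) ^ 4) ^ (G + 1) := by gcongr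
      _ = 2 * ((16 * k) ^ (G + 1) * 2 ^ (4 * N * (G + 1))) := by
          rw [mul_pow, ← pow_mul, ← pow_mul]; ring_nf
  have h4 : N + (4 * N * (N + 1) + 4 * N * (G + 1)) ≤ w := by
    refine le_trans ?_ hw1
    have e1 : 4 * G + 9 ≤ N := hN1
    have e2 : 1 + (4 * (N + 1) + 4 * (G + 1)) ≤ N ^ 3 := by
      have : 5 * N ≤ N ^ 3 := by
        have e3 : 5 ≤ N ^ 2 := by nlinarith
        calc 5 * N ≤ N ^ 2 * N := Nat.mul_le_mul_right _ e3
          _ = N ^ 3 := by ring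
      omega
    calc N + (4 * N * (N + 1) + 4 * N * (G + 1)) = N * (1 + (4 * (N + 1) + 4 * (G + 1))) := by ring
      _ ≤ N * N ^ 3 := Nat.mul_le_mul_left _ e2
      _ = N ^ 4 := by ring
  calc (n + 1) * (2 * n ^ G * (k * (1 + N * w ^ N)))
      = 2 * k * ((n + 1) * n ^ G) * (1 + N * w ^ N) := by ring
    _ ≤ 2 * k * (2 * ((16 * k) ^ (G + 1) * 2 ^ (4 * N * (G + 1)))) *
        (2 * 2 ^ (4 * N * (N + 1))) := by
        gcongr
        exact h1.trans (Nat.mul_le_mul_left _ h2)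
    _ = (8 * k * (16 * k) ^ (G + 1)) * (2 ^ (4 * N * (N + 1)) * 2 ^ (4 * N * (G + 1))) := by ring
    _ ≤ 2 ^ N * (2 ^ (4 * N * (N + 1)) * 2 ^ (4 * N * (G + 1))) :=
        Nat.mul_le_mul_right _ (hN2.trans hNpow')
    _ = 2 ^ (N + (4 * N * (N + 1) + 4 * N * (G + 1))) := by rw [← pow_add, ← pow_add]
    _ ≤ 2 ^ w := Nat.pow_le_pow_right (by norm_num) h4

lemma two_pow_le (n : ℕ) : 2 ^ n ≤ (n + 1) * n.choose (n / 2) := by
  rw [← Nat.sum_range_choose]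
  calc ∑ m ∈ Finset.range (n + 1), n.choose m
      ≤ ∑ _m ∈ Finset.range (n + 1), n.choose (n / 2) :=
        Finset.sum_le_sum (fun m _ => Nat.choose_le_middle m n)
    _ = _ := by rw [Finset.sum_const, Finset.card_range, smul_eq_mul]

/-- the final numerical step -/
lemma num3 (k a G N w n c : ℕ) (hk : 0 < k) (hwk : w = n / k)
    (hN1 : 4 * G + 9 + 2 * a * (16 * k) ^ G + 8 * k * (16 * k) ^ (G + 1) ≤ N)
    (hw1 : N ^ 4 ≤ w) (hw2 : w < (N + 1) ^ 4)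
    (h : c * N ^ (4 * G + 1) ≤ a * n.choose (n / 2) +
      (k * ((1 + N * w ^ N) * 2 ^ (n - w))) * N ^ (4 * G + 1)) :
    n ^ G * c ≤ n.choose (n / 2) := by
  have hNpos : 0 < N := by omega
  have hw0 : 0 < w := lt_of_lt_of_le (pow_pos hNpos 4) hw1
  have hwn : w ≤ n := by rw [hwk]; exact Nat.div_le_self n k
  have hn1 : 1 ≤ n := by omega
  have hnk : n ≤ 16 * k * N ^ 4 := by
    have e1 : n < k * (w + 1) := by rw [hwk]; exact Nat.lt_mul_div_succ n hk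
    calc n ≤ k * (w + 1) := e1.le
      _ ≤ k * (N + 1) ^ 4 := Nat.mul_le_mul_left _ hw2
      _ ≤ k * (2 * N) ^ 4 := by gcongr; omega
      _ = 16 * k * N ^ 4 := by ring
  have e1 := num1 k a G N n (by omega) hnk
  have e2 := num2 k G N w n (by omega) (by omega) hw1 hw2 hnk hn1
  have e3 := two_pow_le n
  set ch := n.choose (n / 2) with hch
  set Nρ := N ^ (4 * G + 1) with hNρ
  have hNρpos : 0 < Nρ := pow_pos hNpos _
  have e4 : 2 * n ^ G * (k * ((1 + N * w ^ N) * 2 ^ (n - w))) ≤ ch := by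
    have : (n + 1) * (2 * n ^ G * (k * ((1 + N * w ^ N) * 2 ^ (n - w)))) ≤ (n + 1) * ch := by
      calc (n + 1) * (2 * n ^ G * (k * ((1 + N * w ^ N) * 2 ^ (n - w))))
          = ((n + 1) * (2 * n ^ G * (k * (1 + N * w ^ N)))) * 2 ^ (n - w) := by ring
        _ ≤ 2 ^ w * 2 ^ (n - w) := Nat.mul_le_mul_right _ e2
        _ = 2 ^ n := by rw [← pow_add]; congr 1; omega
        _ ≤ (n + 1) * ch := e3
    exact Nat.le_of_mul_le_mul_left this (by omega)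
  have e5 : (2 * Nρ) * (n ^ G * c) ≤ (2 * Nρ) * ch := by
    calc (2 * Nρ) * (n ^ G * c) = 2 * n ^ G * (c * Nρ) := by ring
      _ ≤ 2 * n ^ G * (a * ch + (k * ((1 + N * w ^ N) * 2 ^ (n - w))) * Nρ) :=
          Nat.mul_le_mul_left _ h
      _ = (2 * n ^ G * a) * ch + (2 * n ^ G * (k * ((1 + N * w ^ N) * 2 ^ (n - w)))) * Nρ := by
          ring
      _ ≤ Nρ * ch + ch * Nρ := Nat.add_le_add (Nat.mul_le_mul_right _ e1)
          (Nat.mul_le_mul_right _ e4)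
      _ = (2 * Nρ) * ch := by ring
  exact Nat.le_of_mul_le_mul_left e5 (by omega)

end Pool.Agent.PatternDensity
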